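import Pool.Agent.H98.RFZ.Targets
import Pool.Agent.H30.RFC.TRA

set_option autoImplicit false

noncomputable section

open MeasureTheory ProbabilityTheory Pool.Agent.H98.RFC Pool.Agent.H98.RFZ

namespace Pool.Agent.H54.RFZ

open Pool.Agent.H30.RFC

theorem unmap (y : Site) (S : Finset Site) :
    S = (S.map (tau y).symm.toEmbedding).map (tau y).toEmbedding := by
  ext z
  simp only [Finset.mem_map_equiv, Equiv.symm_symm, Equiv.apply_symm_apply]

theorem gp_map (R : ℕ) (J h : Site → ℝ) (y : Site) (Λ : Finset Site) (B : Set Site) (x : Site) :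
    tau y x ∈ gp R J h (Λ.map (tau y).toEmbedding) B
      ↔ x ∈ gp R J (fun x => h (y + x)) Λ ((tau y) ⁻¹' B) := by
  classical
  unfold gp
  rw [Finset.mem_filter, Finset.mem_filter, Finset.mem_map_equiv, Equiv.symm_apply_apply]
  refine and_congr_right fun _ => ?_
  constructor
  · rintro ⟨S, hS, hx⟩
    rw [unmap y S] at hS hx
    rw [gs_map] at hS
    rw [Finset.mem_map_equiv, Equiv.symm_apply_apply] at hx
    exact ⟨_, hS, hx⟩
  · rintro ⟨S, hS, hx⟩
    refine ⟨S.map (tau y).toEmbedding, (gs_map R J h y Λ B S).2 hS, ?_⟩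
    rw [Finset.mem_map_equiv, Equiv.symm_apply_apply]
    exact hx

theorem gn_map (R : ℕ) (J h : Site → ℝ) (y : Site) (Λ : Finset Site) (B : Set Site) (x : Site) :
    tau y x ∈ gn R J h (Λ.map (tau y).toEmbedding) B
      ↔ x ∈ gn R J (fun x => h (y + x)) Λ ((tau y) ⁻¹' B) := by
  classical
  unfold gn
  rw [Finset.mem_filter, Finset.mem_filter, Finset.mem_map_equiv, Equiv.symm_apply_apply]
  refine and_congr_right fun _ => ?_
  constructor
  · intro H S hS
    have h1 := H _ ((gs_map R J h y Λ B S).2 hS)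
    rw [Finset.mem_map_equiv, Equiv.symm_apply_apply] at h1
    exact h1
  · intro H S hS
    rw [unmap y S, gs_map] at hS
    rw [unmap y S, Finset.mem_map_equiv, Equiv.symm_apply_apply]
    exact H _ hS

theorem pf_TRA : Z_TRA := by
  classical
  intro R J h Λ y
  have hi : ∀ T : Finset Site, T.image (fun x => y + x) = T.map (tau y).toEmbedding := by
    intro T
    rw [Finset.map_eq_image]
    rfl
  have hc : (tau y) ⁻¹' ((↑(Λ.map (tau y).toEmbedding) : Set Site)ᶜ)
      = ((↑Λ : Set Site))ᶜ := by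
    ext z
    simp only [Set.mem_preimage, Set.mem_compl_iff, Finset.mem_coe, Finset.mem_map_equiv,
      Equiv.symm_apply_apply]
  have he : (tau y) ⁻¹' (∅ : Set Site) = ∅ := Set.preimage_empty
  rw [hi, hi]
  ext z
  obtain ⟨x, rfl⟩ := (tau y).surjective z
  unfold Ds
  rw [Finset.mem_map_equiv, Equiv.symm_apply_apply, Finset.mem_sdiff, Finset.mem_sdiff,
    gp_map, gn_map, hc, he]

end Pool.Agent.H54.RFZ
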